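import Mathlib
import Pool.Agent.Lib.MP_018e2a_an.Third

set_option autoImplicit false

open MeasureTheory

namespace Pool.Agent.Lib.MP_018e2a_an.Old.AboveOneThird

/-- The map `T_{γ × γ}`: the composition of all `T i j` with `i, j ∈ γ`. -/
noncomputable def sqMap {X : Type} (T : ℕ → ℕ → X → X) (γ : Finset ℕ) : X → X :=
  List.foldr
    (fun (i : ℕ) (f : X → X) =>
      (List.foldr (fun (j : ℕ) (g : X → X) => T i j ∘ g) (id : X → X) γ.toList) ∘ f)
    (id : X → X) γ.toList

section aux

variable {X : Type} (T : ℕ → ℕ → X → X)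

/-- the generating set -/
def gens : Set (Function.End X) := Set.range fun q : ℕ × ℕ => (T q.1 q.2 : Function.End X)

/-- the submonoid generated by the maps `T i j` -/
abbrev Mon : Type := Submonoid.closure (gens T)

theorem gens_comm (hT : ∀ i j k l, T i j ∘ T k l = T k l ∘ T i j) :
    ∀ a ∈ gens T, ∀ b ∈ gens T, a * b = b * a := by
  rintro _ ⟨q, rfl⟩ _ ⟨r, rfl⟩
  exact hT q.1 q.2 r.1 r.2

/-- the generators as elements of the submonoid -/
def gen (q : ℕ × ℕ) : Mon T := ⟨(T q.1 q.2 : Function.End X), Submonoid.subset_closure ⟨q, rfl⟩⟩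

theorem mp_of_mem [MeasurableSpace X] {μ : Measure X} (h : ∀ i j, MeasurePreserving (T i j) μ μ)
    (m : Mon T) : MeasurePreserving (m.1 : X → X) μ μ := by
  obtain ⟨m, hm⟩ := m
  show MeasurePreserving (m : X → X) μ μ
  induction hm using Submonoid.closure_induction with
  | mem x hx =>
    obtain ⟨q, rfl⟩ := hx
    exact h q.1 q.2
  | one => exact MeasurePreserving.id μ
  | mul x y _ _ hx hy => exact MeasurePreserving.comp hx hy

/-- the submonoid generated by commuting maps is commutative -/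
@[reducible] def monComm (hT : ∀ i j k l, T i j ∘ T k l = T k l ∘ T i j) : CommMonoid (Mon T) :=
  { (inferInstance : Monoid (Mon T)) with
    mul_comm := (Submonoid.isMulCommutative_closure (Function.End X)
      (gens_comm T hT)).is_comm.comm }

end aux

open MP018e in
theorem sqMap_eq {X : Type} (T : ℕ → ℕ → X → X)
    (hT : ∀ i j k l, T i j ∘ T k l = T k l ∘ T i j) (γ : Finset ℕ) :
    letI : CommMonoid (Mon T) := monComm T hT
    sqMap T γ = ((vv (gen T) γ).1 : X → X) := by
  let _ : CommMonoid (Mon T) := monComm T hT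
  have h1 : ∀ (i : ℕ) (l : List ℕ),
      List.foldr (fun (j : ℕ) (g : X → X) => T i j ∘ g) (id : X → X) l =
        (((l.map fun j => gen T (i, j)).prod).1 : X → X) := by
    intro i l
    induction l with
    | nil => rfl
    | cons j l ih =>
      rw [List.foldr_cons, ih, List.map_cons, List.prod_cons]
      rfl
  have h2 : ∀ (k l : List ℕ),
      List.foldr (fun (i : ℕ) (f : X → X) =>
        (List.foldr (fun (j : ℕ) (g : X → X) => T i j ∘ g) (id : X → X) k) ∘ f)
        (id : X → X) l =
        (((l.map fun i => (k.map fun j => gen T (i, j)).prod).prod).1 : X → X) := by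
    intro k l
    induction l with
    | nil => rfl
    | cons i l ih =>
      rw [List.foldr_cons, ih, List.map_cons, List.prod_cons, h1]
      rfl
  show sqMap T γ = ((vv (gen T) γ).1 : X → X)
  rw [sqMap, h2]
  congr 2
  unfold vv
  rw [Finset.prod_product, ← Finset.prod_map_toList]
  congr 1
  refine List.map_congr_left fun i _ => ?_
  rw [← Finset.prod_map_toList]

open MP018e in
/-- Let `T i j` be commuting measure preserving maps of a probability space, `A` a measurable set
and `c ≥ 0` a number with `c < μ(A)` and `(1 - μ(A)) (μ(A) + c) < 2 (μ(A) - c) ^ 2`. Then for every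
sequence `β` of pairwise disjoint finite sets there is a finite nonempty `γ` with
`μ(A ∩ T_{δ × δ}⁻¹ A) > c`, where `δ = ⋃_{i ∈ γ} β i`. -/
theorem result (X : Type) [MeasurableSpace X] (μ : Measure X) [IsProbabilityMeasure μ]
    (T : ℕ → ℕ → X → X) (hmp : ∀ i j, MeasurePreserving (T i j) μ μ)
    (hcomm : ∀ i j k l, T i j ∘ T k l = T k l ∘ T i j)
    (A : Set X) (hA : MeasurableSet A) (c : ℝ) (hc0 : 0 ≤ c) (hcA : c < μ.real A)
    (hc : (1 - μ.real A) * (μ.real A + c) < 2 * (μ.real A - c) ^ 2)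
    (β : ℕ → Finset ℕ) (hβ : ∀ i j, i ≠ j → Disjoint (β i) (β j)) :
    ∃ γ : Finset ℕ, γ.Nonempty ∧ c < μ.real (A ∩ sqMap T (γ.biUnion β) ⁻¹' A) := by
  let _ : CommMonoid (Mon T) := monComm T hcomm
  let t : ℕ × ℕ → Mon T := fun q => ∏ r ∈ β q.1 ×ˢ β q.2, gen T r
  obtain ⟨γ, hγ, h⟩ := core (μ := μ) (fun m : Mon T => (m.1 : X → X)) (fun a b => rfl)
    (fun m => mp_of_mem T hmp m) t hA c hc0 hcA hc
  refine ⟨γ, hγ, ?_⟩
  have h1 : vv t γ = vv (gen T) (γ.biUnion β) := by
    unfold vv
    have h2 : (↑γ : Set ℕ).PairwiseDisjoint β := fun i _ j _ hij => hβ i j hij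
    rw [Finset.prod_product, Finset.prod_product, Finset.prod_biUnion h2]
    refine Finset.prod_congr rfl fun i _ => ?_
    have h3 : ∀ a, ∏ b ∈ γ.biUnion β, gen T (a, b) = ∏ j ∈ γ, ∏ b ∈ β j, gen T (a, b) :=
      fun a => Finset.prod_biUnion h2
    simp_rw [h3]
    rw [Finset.prod_comm]
    refine Finset.prod_congr rfl fun j _ => ?_
    show ∏ r ∈ β i ×ˢ β j, gen T r = _
    rw [Finset.prod_product]
  rw [sqMap_eq T hcomm, ← h1]
  exact h

end Pool.Agent.Lib.MP_018e2a_an.Old.AboveOneThird
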